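import Pool.Agent.MHP.StmtsS

/-!
# Squad MHP, row SPG (StmtsS): gluing in the class `Spr g`
-/

set_option autoImplicit false

open scoped Classical

namespace Pool.Agent.MHP.H62

open Pool.Agent.HMT Pool.Agent.MHP

/-- edges inside a set of vertices of a glued graph -/
theorem edges_le {V W : Type} [Finite V] [Finite W] (X : SimpleGraph W) (x : W)
    (C : SimpleGraph V) (r : V) (Y : Set (W ⊕ {v : V // v ≠ r})) :
    Nat.card ((glue X x C r).induce Y).edgeSet ≤
      Nat.card (X.induce {w | (Sum.inl w : W ⊕ {v : V // v ≠ r}) ∈ Y}).edgeSet +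
        Nat.card (C.induce {v | emb r x v ∈ Y}).edgeSet := by
  obtain ⟨φ, hφ⟩ : ∃ φ : X.induce {w | (Sum.inl w : W ⊕ {v : V // v ≠ r}) ∈ Y} →g
      (glue X x C r).induce Y, ∀ a, φ a = ⟨Sum.inl a.1, a.2⟩ :=
    ⟨⟨fun a => ⟨Sum.inl a.1, a.2⟩, fun {a b} h => h⟩, fun _ => rfl⟩
  obtain ⟨ψ, hψ⟩ : ∃ ψ : C.induce {v | emb r x v ∈ Y} →g
      (glue X x C r).induce Y, ∀ a, ψ a = ⟨emb r x a.1, a.2⟩ :=
    ⟨⟨fun a => ⟨emb r x a.1, a.2⟩, fun {a b} h => (glue_adj_emb X x C r a.1 b.1).2 h⟩,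
      fun _ => rfl⟩
  rw [← Nat.card_sum]
  refine Nat.card_le_card_of_surjective
    (Sum.elim (SimpleGraph.Hom.mapEdgeSet φ) (SimpleGraph.Hom.mapEdgeSet ψ)) ?_
  rintro ⟨e, he⟩
  induction e using Sym2.ind with
  | _ p q =>
    have h : (glue X x C r).Adj p.1 q.1 := he
    rcases (glue_adj_iff X x C r p.1 q.1).1 h with ⟨a, b, hp, hq, hab⟩ | ⟨a, b, hp, hq, hab⟩
    · have ha : a ∈ {w | (Sum.inl w : W ⊕ {v : V // v ≠ r}) ∈ Y} := by
        show (Sum.inl a : W ⊕ {v : V // v ≠ r}) ∈ Y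
        rw [← hp]
        exact p.2
      have hb : b ∈ {w | (Sum.inl w : W ⊕ {v : V // v ≠ r}) ∈ Y} := by
        show (Sum.inl b : W ⊕ {v : V // v ≠ r}) ∈ Y
        rw [← hq]
        exact q.2
      refine ⟨Sum.inl ⟨s(⟨a, ha⟩, ⟨b, hb⟩), hab⟩, ?_⟩
      apply Subtype.ext
      show Sym2.map φ s(⟨a, ha⟩, ⟨b, hb⟩) = s(p, q)
      rw [Sym2.map_mk, hφ, hφ]
      have e1 : (⟨Sum.inl a, ha⟩ : Y) = p := Subtype.ext hp.symm
      have e2 : (⟨Sum.inl b, hb⟩ : Y) = q := Subtype.ext hq.symm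
      rw [e1, e2]
    · have ha : a ∈ {v | emb r x v ∈ Y} := by
        show emb r x a ∈ Y
        rw [← hp]
        exact p.2
      have hb : b ∈ {v | emb r x v ∈ Y} := by
        show emb r x b ∈ Y
        rw [← hq]
        exact q.2
      refine ⟨Sum.inr ⟨s(⟨a, ha⟩, ⟨b, hb⟩), hab⟩, ?_⟩
      apply Subtype.ext
      show Sym2.map ψ s(⟨a, ha⟩, ⟨b, hb⟩) = s(p, q)
      rw [Sym2.map_mk, hψ, hψ]
      have e1 : (⟨emb r x a, ha⟩ : Y) = p := Subtype.ext hp.symm
      have e2 : (⟨emb r x b, hb⟩ : Y) = q := Subtype.ext hq.symm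
      rw [e1, e2]

/-- the sparsity bound also for the empty set -/
theorem spr_all {V : Type} [Finite V] (g : ℕ) (G : SimpleGraph V)
    (h : ∀ X : Set V, X.Nonempty →
      g * Nat.card (G.induce X).edgeSet ≤ (g + 1) * (Nat.card X - 1)) (X : Set V) :
    g * Nat.card (G.induce X).edgeSet ≤ (g + 1) * (Nat.card X - 1) := by
  rcases X.eq_empty_or_nonempty with h0 | h0
  · have h1 : Nat.card (G.induce X).edgeSet = 0 := by
      rw [Nat.card_eq_zero]
      left
      constructor
      rintro ⟨e, he⟩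
      induction e using Sym2.ind with
      | _ p q =>
        have h2 : (p : V) ∈ (∅ : Set V) := h0 ▸ p.2
        exact h2
    rw [h1, mul_zero]
    exact Nat.zero_le _
  · exact h X h0

theorem spg : SpgStmt := by
  intro g V W _ _ X x C r hX hC
  rcases hX with hX | ⟨⟨cX⟩, hX⟩
  · exact Or.inl hX
  rcases hC with hC | ⟨⟨cC⟩, hC⟩
  · exact Or.inl hC
  right
  constructor
  · -- colourings
    obtain ⟨t, ht⟩ : ∃ t : Fin 2, cC r + t = cX x := ⟨cX x - cC r, add_sub_cancel _ _⟩
    refine ⟨SimpleGraph.Coloring.mk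
      (Sum.elim (fun w => cX w) (fun v => cC v.1 + t)) ?_⟩
    intro p q h
    have hemb : ∀ v : V, (Sum.elim (fun w => cX w) (fun v : {v : V // v ≠ r} => cC v.1 + t)
        (emb r x v) : Fin 2) = cC v + t := by
      intro v
      by_cases hv : v = r
      · rw [hv, emb_root, Sum.elim_inl, ht]
      · rw [emb_of_ne r x v hv, Sum.elim_inr]
    rcases (glue_adj_iff X x C r p q).1 h with ⟨a, b, hp, hq, hab⟩ | ⟨a, b, hp, hq, hab⟩
    · rw [hp, hq]
      exact cX.valid hab
    · rw [hp, hq]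
      intro heq
      have h1 : (cC a + t : Fin 2) = cC b + t := by
        rw [← hemb a, ← hemb b]
        exact heq
      exact cC.valid hab (add_right_cancel h1)
  · intro Y hY
    obtain ⟨A, hA⟩ : ∃ A : Set W, A = {w | (Sum.inl w : W ⊕ {v : V // v ≠ r}) ∈ Y} := ⟨_, rfl⟩
    obtain ⟨B, hB⟩ : ∃ B : Set V, B = {v | emb r x v ∈ Y} := ⟨_, rfl⟩
    have he := edges_le X x C r Y
    rw [← hA, ← hB] at he
    have h1 := spr_all g X hX A
    have h2 := spr_all g C hC B
    -- the vertices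
    have hsub : (Sum.inl '' A) ∪ (emb r x '' (B \ {r})) ⊆ Y := by
      rintro p (⟨a, ha, rfl⟩ | ⟨b, hb, rfl⟩)
      · rw [hA] at ha
        exact ha
      · rw [hB] at hb
        exact hb.1
    have hdis : Disjoint (Sum.inl '' A : Set (W ⊕ {v : V // v ≠ r})) (emb r x '' (B \ {r})) := by
      rw [Set.disjoint_left]
      rintro p ⟨a, _, rfl⟩ ⟨b, hb, hb2⟩
      exact hb.2 ((inl_eq_emb r x a b).1 hb2.symm).2
    have hcard : A.ncard + (B \ {r}).ncard ≤ Y.ncard := by
      have h3 := Set.ncard_le_ncard hsub (Set.toFinite Y)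
      rw [Set.ncard_union_eq hdis (Set.toFinite _) (Set.toFinite _),
        Set.ncard_image_of_injective _ Sum.inl_injective,
        Set.ncard_image_of_injective _ (emb_injective r x)] at h3
      exact h3
    have hYA : Nat.card Y = Y.ncard := Nat.card_coe_set_eq Y
    have hAA : Nat.card A = A.ncard := Nat.card_coe_set_eq A
    have hBB : Nat.card B = B.ncard := Nat.card_coe_set_eq B
    have hY1 : 1 ≤ Y.ncard := (Set.ncard_pos (Set.toFinite Y)).2 hY
    have hbound : (A.ncard - 1) + (B.ncard - 1) ≤ Y.ncard - 1 := by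
      by_cases hx : x ∈ A
      · have hr : r ∈ B := by
          rw [hB]
          show emb r x r ∈ Y
          rw [emb_root]
          rw [hA] at hx
          exact hx
        have h3 : (B \ {r}).ncard = B.ncard - 1 := Set.ncard_sdiff_singleton_of_mem hr
        have h4 : 1 ≤ A.ncard := (Set.ncard_pos (Set.toFinite A)).2 ⟨x, hx⟩
        have h5 : 1 ≤ B.ncard := (Set.ncard_pos (Set.toFinite B)).2 ⟨r, hr⟩
        omega
      · have hr : r ∉ B := by
          rw [hB]
          intro h3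
          apply hx
          rw [hA]
          have h4 : emb r x r ∈ Y := h3
          rw [emb_root] at h4
          exact h4
        rw [Set.sdiff_singleton_eq_self hr] at hcard
        omega
    rw [hYA]
    rw [hAA] at h1
    rw [hBB] at h2
    calc g * Nat.card ((glue X x C r).induce Y).edgeSet ≤
        g * (Nat.card (X.induce A).edgeSet + Nat.card (C.induce B).edgeSet) :=
          Nat.mul_le_mul_left g he
      _ = g * Nat.card (X.induce A).edgeSet + g * Nat.card (C.induce B).edgeSet := by ring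
      _ ≤ (g + 1) * (A.ncard - 1) + (g + 1) * (B.ncard - 1) := Nat.add_le_add h1 h2
      _ = (g + 1) * ((A.ncard - 1) + (B.ncard - 1)) := by ring
      _ ≤ (g + 1) * (Y.ncard - 1) := Nat.mul_le_mul_left _ hbound

end Pool.Agent.MHP.H62
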